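import Mathlib
import Pool.Agent.Lib.MP_48c8ea_co.Defs
import Pool.Agent.Lib.MP_48c8ea_co.Upper
import Pool.Agent.Lib.MP_48c8ea_co.Lower

/-!
# Which non-classical vincular patterns have exponential growth

A vincular pattern `(p, A)` with `A` nonempty has exponential growth if and only if it has exactly
one adjacency and the two adjacent letters are the smallest and the largest letter. In particular
there are non-classical vincular patterns of exponential growth of every length at least four.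
-/

open MP_48c8ea_co

namespace Pool.Agent.Results.MP_48c8ea_co.Classification

theorem result :
    (∀ (k : ℕ) (p : Equiv.Perm (Fin k)) (A : Finset ℕ), (∀ j ∈ A, j + 1 < k) → A.Nonempty →
      (ExpGrowth p A ↔ ∃ (j : ℕ) (hj : j + 1 < k), A = {j} ∧
        (((p ⟨j, Nat.lt_of_succ_lt hj⟩ : ℕ) = 0 ∧ (p ⟨j + 1, hj⟩ : ℕ) = k - 1) ∨
          ((p ⟨j, Nat.lt_of_succ_lt hj⟩ : ℕ) = k - 1 ∧ (p ⟨j + 1, hj⟩ : ℕ) = 0)))) ∧
    (∀ k : ℕ, 4 ≤ k → ∃ (p : Equiv.Perm (Fin k)) (A : Finset ℕ),
      (∀ j ∈ A, j + 1 < k) ∧ A.Nonempty ∧ ExpGrowth p A) := by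
  refine ⟨?_, ?_⟩
  · intro k p A hA hne
    constructor
    · intro hexp
      have hext : ∀ (j : ℕ) (hj : j + 1 < k), j ∈ A →
          (((p ⟨j, Nat.lt_of_succ_lt hj⟩ : ℕ) = 0 ∧ (p ⟨j + 1, hj⟩ : ℕ) = k - 1) ∨
          ((p ⟨j, Nat.lt_of_succ_lt hj⟩ : ℕ) = k - 1 ∧ (p ⟨j + 1, hj⟩ : ℕ) = 0)) := by
        intro j hj hjA
        by_contra hcon
        push Not at hcon
        obtain ⟨hc1, hc2⟩ := hcon
        have hxy : (p ⟨j, Nat.lt_of_succ_lt hj⟩ : ℕ) ≠ (p ⟨j + 1, hj⟩ : ℕ) := by
          intro h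
          have h2 := p.injective (Fin.ext h)
          rw [Fin.mk.injEq] at h2
          omega
        have hx := (p ⟨j, Nat.lt_of_succ_lt hj⟩).2
        have hy := (p ⟨j + 1, hj⟩).2
        by_cases h0 : (p ⟨j, Nat.lt_of_succ_lt hj⟩ : ℕ) ≠ 0 ∧ (p ⟨j + 1, hj⟩ : ℕ) ≠ 0
        · refine not_expGrowth p A j hjA hj (p.symm ⟨0, by omega⟩) (Or.inl ?_) hexp
          rw [Equiv.apply_symm_apply]
          constructor
          · rw [Fin.lt_def]; simp only; omega
          · rw [Fin.lt_def]; simp only; omega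
        · refine not_expGrowth p A j hjA hj (p.symm ⟨k - 1, by omega⟩) (Or.inr ?_) hexp
          rw [Equiv.apply_symm_apply]
          have h1 : (p ⟨j, Nat.lt_of_succ_lt hj⟩ : ℕ) = 0 → (p ⟨j + 1, hj⟩ : ℕ) ≠ k - 1 := hc1
          have h2 : (p ⟨j, Nat.lt_of_succ_lt hj⟩ : ℕ) = k - 1 → (p ⟨j + 1, hj⟩ : ℕ) ≠ 0 := hc2
          constructor
          · rw [Fin.lt_def]
            simp only
            rcases Nat.eq_zero_or_pos (p ⟨j, Nat.lt_of_succ_lt hj⟩ : ℕ) with h3 | h3
            · omega
            · have h4 : (p ⟨j + 1, hj⟩ : ℕ) = 0 := by omega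
              have h5 : (p ⟨j, Nat.lt_of_succ_lt hj⟩ : ℕ) ≠ k - 1 := fun h => h2 h h4
              omega
          · rw [Fin.lt_def]
            simp only
            rcases Nat.eq_zero_or_pos (p ⟨j + 1, hj⟩ : ℕ) with h3 | h3
            · omega
            · have h4 : (p ⟨j, Nat.lt_of_succ_lt hj⟩ : ℕ) = 0 := by omega
              have h5 := h1 h4
              omega
      obtain ⟨j, hjA⟩ := hne
      have hj := hA j hjA
      refine ⟨j, hj, ?_, hext j hj hjA⟩
      rw [Finset.eq_singleton_iff_unique_mem]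
      refine ⟨hjA, ?_⟩
      have key : ∀ i i' : ℕ, i ∈ A → i' ∈ A → ¬ i < i' := by
        intro i i' hi hi' hlt
        have hk := hA i hi
        have hk' := hA i' hi'
        have e1 := hext i hk hi
        have e2 := hext i' hk' hi'
        have f1 : (p ⟨i, Nat.lt_of_succ_lt hk⟩ : ℕ) ≠ (p ⟨i' + 1, hk'⟩ : ℕ) := by
          intro h
          have h2 := p.injective (Fin.ext h)
          rw [Fin.mk.injEq] at h2
          omega
        have f2 : (p ⟨i + 1, hk⟩ : ℕ) ≠ (p ⟨i' + 1, hk'⟩ : ℕ) := by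
          intro h
          have h2 := p.injective (Fin.ext h)
          rw [Fin.mk.injEq] at h2
          omega
        omega
      intro j' hj'
      have k1 := key j j' hjA hj'
      have k2 := key j' j hj' hjA
      omega
    · rintro ⟨j, hj, rfl, h⟩
      exact expGrowth_of_extreme p j hj h
  · intro k hk
    refine ⟨Equiv.swap ⟨1, by omega⟩ ⟨k - 1, by omega⟩, {0}, ?_, ?_, ?_⟩
    · intro j hj
      rw [Finset.mem_singleton] at hj
      omega
    · exact Finset.singleton_nonempty 0
    · apply expGrowth_of_extreme _ 0 (by omega)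
      left
      constructor
      · rw [Equiv.swap_apply_of_ne_of_ne]
        · intro h
          rw [Fin.mk.injEq] at h
          omega
        · intro h
          rw [Fin.mk.injEq] at h
          omega
      · have : (⟨0 + 1, by omega⟩ : Fin k) = ⟨1, by omega⟩ := rfl
        rw [this, Equiv.swap_apply_left]

end Pool.Agent.Results.MP_48c8ea_co.Classification
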